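import Pool.Agent.H94.PtakFinal

namespace Pool.Agent.Results.MP_a1a577_an.SingleRoot

open Polynomial Pool.Agent.H94.PtakD

theorem result (n : ℕ) (hn : 1 ≤ n) (r : ℝ) (hr0 : 0 < r) (hr1 : r < 1) (f : ℂ → ℂ)
    (hf : DifferentiableOn ℂ f (Metric.ball 0 1)) :
    ∃ a : ℂ, ‖a‖ = r ∧ IsWorst n r f ((X - C a) ^ n) ∧
      ∃ T₀ ∈ AA n ((X - C a) ^ n), ∀ p ∈ PSet n r, ∀ T ∈ AA n p,
        Summable (fun k : ℕ => (iteratedDeriv k f 0 / (k.factorial : ℂ)) • T ^ k) ∧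
        ‖funCalc f T‖ ≤ ‖funCalc f T₀‖ :=
  Pool.Agent.H94.Ptak.worst hn hr0 hr1 hf

end Pool.Agent.Results.MP_a1a577_an.SingleRoot
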